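import Mathlib

set_option autoImplicit false

namespace Pool.Agent.P.MP_f981b0_an.IS70

open Finset Filter Topology

variable {P : Type*} [SeminormedAddCommGroup P]

/-- telescoping plus Cauchy-Schwarz -/
theorem tele_le (Y : ℕ → P) (k n : ℕ) (B : ℝ) (hB : 0 ≤ B)
    (h : ∑ j ∈ range n, ‖Y (k + j) - Y (k + j + 1)‖ ^ 2 ≤ B ^ 2) :
    ‖Y k - Y (k + n)‖ ≤ B * Real.sqrt n := by
  have h1 : Y k - Y (k + n) = ∑ j ∈ range n, (Y (k + j) - Y (k + j + 1)) := by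
    have := Finset.sum_range_sub' (fun j => Y (k + j)) n
    simpa [add_assoc] using this.symm
  have h2 : ‖Y k - Y (k + n)‖ ≤ ∑ j ∈ range n, ‖Y (k + j) - Y (k + j + 1)‖ := by
    rw [h1]; exact norm_sum_le _ _
  have h3 : (∑ j ∈ range n, ‖Y (k + j) - Y (k + j + 1)‖) ^ 2
      ≤ n * ∑ j ∈ range n, ‖Y (k + j) - Y (k + j + 1)‖ ^ 2 := by
    have := sq_sum_le_card_mul_sum_sq (s := range n)
      (f := fun j => ‖Y (k + j) - Y (k + j + 1)‖)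
    simpa using this
  have h4 : (∑ j ∈ range n, ‖Y (k + j) - Y (k + j + 1)‖) ^ 2 ≤ (B * Real.sqrt n) ^ 2 := by
    rw [mul_pow, Real.sq_sqrt (Nat.cast_nonneg n)]
    calc _ ≤ n * ∑ j ∈ range n, ‖Y (k + j) - Y (k + j + 1)‖ ^ 2 := h3
      _ ≤ n * B ^ 2 := by gcongr
      _ = B ^ 2 * n := by ring
  exact h2.trans (abs_le_of_sq_le_sq' h4 (by positivity)).2

/-- every finite sum of the squared differences is at most `4 δ ^ 2` -/
theorem sum_sq_le (Y : ℕ → P) (K : ℕ) (δ T : ℝ) (hT : 0 ≤ T) (hTδ : 4 * T ≤ δ)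
    (hsum : ∑ k ∈ range (K + 1), ‖Y k - Y (k + 1)‖ ^ 2 ≤ δ ^ 2)
    (htail : ∀ j, ‖Y (K + 1 + j)‖ ≤ T * (1 / 2) ^ j) (n : ℕ) :
    ∑ k ∈ range n, ‖Y k - Y (k + 1)‖ ^ 2 ≤ 4 * δ ^ 2 := by
  have hδ : 0 ≤ δ := by linarith
  have h1 : ∑ k ∈ range n, ‖Y k - Y (k + 1)‖ ^ 2
      ≤ ∑ k ∈ range (K + 1 + n), ‖Y k - Y (k + 1)‖ ^ 2 :=
    sum_le_sum_of_subset_of_nonneg (range_mono (by omega)) (fun _ _ _ => by positivity)
  rw [Finset.sum_range_add] at h1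
  have h2 : ∀ j ∈ range n, ‖Y (K + 1 + j) - Y (K + 1 + j + 1)‖ ^ 2
      ≤ (4 * T ^ 2) * (1 / 2 : ℝ) ^ j := by
    intro j _
    have a1 := htail j
    have a2 := htail (j + 1)
    have hp : (0 : ℝ) ≤ (1 / 2) ^ j := by positivity
    have hp1 : (1 / 2 : ℝ) ^ j ≤ 1 := pow_le_one₀ (by norm_num) (by norm_num)
    have a3 : ‖Y (K + 1 + j) - Y (K + 1 + j + 1)‖ ≤ 2 * T * (1 / 2) ^ j := by
      have := norm_sub_le (Y (K + 1 + j)) (Y (K + 1 + j + 1))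
      rw [pow_succ] at a2
      have e : K + 1 + (j + 1) = K + 1 + j + 1 := by ring
      rw [e] at a2
      have : T * ((1 / 2) ^ j * (1 / 2)) ≤ T * (1 / 2) ^ j := by
        apply mul_le_mul_of_nonneg_left _ hT
        nlinarith
      linarith
    calc _ ≤ (2 * T * (1 / 2) ^ j) ^ 2 := by gcongr
      _ = (4 * T ^ 2) * ((1 / 2 : ℝ) ^ j * (1 / 2) ^ j) := by ring
      _ ≤ (4 * T ^ 2) * (1 / 2 : ℝ) ^ j := by
        apply mul_le_mul_of_nonneg_left _ (by positivity)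
        nlinarith
  have h3 : ∑ j ∈ range n, ‖Y (K + 1 + j) - Y (K + 1 + j + 1)‖ ^ 2 ≤ (4 * T ^ 2) * 2 := by
    refine (sum_le_sum h2).trans ?_
    rw [← mul_sum]
    exact mul_le_mul_of_nonneg_left (sum_geometric_two_le n) (by positivity)
  nlinarith

/-- (Y1) and (Y2), model-free: `Y k` is the functional `y u ^ k` on `F`. -/
theorem y12 (Y : ℕ → P) (K : ℕ) (δ T : ℝ) (hT : 0 ≤ T) (hTδ : 4 * T ≤ δ)
    (hsum : ∑ k ∈ range (K + 1), ‖Y k - Y (k + 1)‖ ^ 2 ≤ δ ^ 2)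
    (htail : ∀ j, ‖Y (K + 1 + j)‖ ≤ T * (1 / 2) ^ j) :
    (∀ s : Finset ℕ, ∑ k ∈ s, ‖Y k - Y (k + 1)‖ ^ 2 ≤ 4 * δ ^ 2) ∧
    (Summable fun k => ‖Y k - Y (k + 1)‖ ^ 2) ∧
    (∑' k, ‖Y k - Y (k + 1)‖ ^ 2 ≤ 4 * δ ^ 2) ∧
    (∀ k, ‖Y k - Y (k + 1)‖ ≤ 2 * δ) ∧
    (∀ k n, ‖Y k - Y (k + n)‖ ≤ 2 * δ * Real.sqrt n) ∧
    (∀ k, ‖Y k‖ ≤ δ * Real.sqrt (K + 1) + T) ∧
    Tendsto Y atTop (𝓝 0) := by
  have hδ : 0 ≤ δ := by linarith
  have hn := sum_sq_le Y K δ T hT hTδ hsum htail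
  have hs : ∀ s : Finset ℕ, ∑ k ∈ s, ‖Y k - Y (k + 1)‖ ^ 2 ≤ 4 * δ ^ 2 := by
    intro s
    obtain ⟨n, hn'⟩ := s.exists_nat_subset_range
    exact (sum_le_sum_of_subset_of_nonneg hn' (fun _ _ _ => by positivity)).trans (hn n)
  have hshift : ∀ k n, ∑ j ∈ range n, ‖Y (k + j) - Y (k + j + 1)‖ ^ 2
      ≤ ∑ i ∈ range (k + n), ‖Y i - Y (i + 1)‖ ^ 2 := by
    intro k n
    rw [Finset.sum_range_add]
    have : 0 ≤ ∑ i ∈ range k, ‖Y i - Y (i + 1)‖ ^ 2 := sum_nonneg (fun _ _ => by positivity)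
    linarith
  refine ⟨hs, summable_of_sum_le (fun _ => by positivity) hs,
    Real.tsum_le_of_sum_le (fun _ => by positivity) hs, ?_, ?_, ?_, ?_⟩
  · intro k
    have := hs {k}
    rw [sum_singleton] at this
    exact abs_le_of_sq_le_sq' (by nlinarith) (by positivity) |>.2
  · intro k n
    refine tele_le Y k n (2 * δ) (by positivity) ?_
    have := (hshift k n).trans (hn (k + n))
    nlinarith
  · intro k
    have hsq : 0 ≤ δ * Real.sqrt (K + 1) := by positivity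
    rcases le_or_gt (K + 1) k with hk | hk
    · obtain ⟨j, rfl⟩ := Nat.exists_eq_add_of_le hk
      have hp1 : (1 / 2 : ℝ) ^ j ≤ 1 := pow_le_one₀ (by norm_num) (by norm_num)
      have := htail j
      nlinarith
    · obtain ⟨n, hn'⟩ := Nat.exists_eq_add_of_le hk.le
      have a1 : ‖Y k - Y (k + n)‖ ≤ δ * Real.sqrt n := by
        refine tele_le Y k n δ hδ ((hshift k n).trans ?_)
        rw [← hn']; exact hsum
      have a2 : ‖Y (k + n)‖ ≤ T := by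
        have := htail 0
        rw [← hn']; simpa using this
      have a3 : Real.sqrt n ≤ Real.sqrt (K + 1) := by
        apply Real.sqrt_le_sqrt
        have : n ≤ K + 1 := by omega
        exact_mod_cast this
      have a4 : ‖Y k‖ ≤ ‖Y k - Y (k + n)‖ + ‖Y (k + n)‖ := by
        simpa using norm_add_le (Y k - Y (k + n)) (Y (k + n))
      have a5 : δ * Real.sqrt n ≤ δ * Real.sqrt (K + 1) := by gcongr
      linarith
  · rw [← tendsto_add_atTop_iff_nat (K + 1)]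
    refine squeeze_zero_norm (a := fun j => T * (1 / 2 : ℝ) ^ j) (fun j => ?_) ?_
    · rw [add_comm]; exact htail j
    · have := (tendsto_pow_atTop_nhds_zero_of_lt_one (r := (1 / 2 : ℝ)) (by norm_num)
        (by norm_num)).const_mul T
      simpa using this

/-- the tail hypothesis of `y12` from the bound `μ 8 ^ N0 / 8 ^ (a k)` of (G1) -/
theorem tail_of_pow (Y : ℕ → P) (K a N0 : ℕ) (μ : ℝ) (hμ : 0 ≤ μ) (ha : 1 ≤ a)
    (h : ∀ k, ‖Y k‖ ≤ μ * (8 ^ N0 / 8 ^ (a * k))) (j : ℕ) :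
    ‖Y (K + 1 + j)‖ ≤ μ * (8 ^ N0 / 8 ^ (a * (K + 1))) * (1 / 2) ^ j := by
  refine (h _).trans ?_
  rw [mul_assoc]
  apply mul_le_mul_of_nonneg_left _ hμ
  have h1 : (2 : ℝ) ^ j ≤ 8 ^ (a * j) := by
    calc (2 : ℝ) ^ j ≤ 8 ^ j := by gcongr; norm_num
      _ ≤ 8 ^ (a * j) := pow_le_pow_right₀ (by norm_num) (Nat.le_mul_of_pos_left j ha)
  have e : (8 : ℝ) ^ (a * (K + 1 + j)) = 8 ^ (a * (K + 1)) * 8 ^ (a * j) := by
    rw [← pow_add]; congr 1; ring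
  rw [e, one_div, inv_pow, ← div_div, ← div_eq_mul_inv]
  gcongr

end Pool.Agent.P.MP_f981b0_an.IS70
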